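import Pool.Agent.Results.MP_95d09c_al.NormalElement

/-!
A consequence of `NormalElement`: the rings of left Krull dimension at most three.
-/

set_option autoImplicit false

namespace Pool.Agent.Lib.MP_95d09c_al.K3

open CategoryTheory Pool.Agent.Results.MP_95d09c_al.NormalElement K2 K2One

variable (R : Type) [Ring R] (h0 : IsLocalRing R) (h1 : IsNoetherianRing R)
    (h2 : IsNoetherianRing Rᵐᵒᵖ)
    (hL : ∃ n : ℕ, ∀ M : ModuleCat.{0} R, ∃ (P : ℕ → ModuleCat.{0} R)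
      (d : ∀ i : ℕ, P (i + 1) ⟶ P i) (ε : P 0 ⟶ M),
      (∀ i, Module.Projective R (P i)) ∧ Function.Surjective ε.hom ∧
      LinearMap.range (d 0).hom = LinearMap.ker ε.hom ∧
      (∀ i, LinearMap.range (d (i + 1)).hom = LinearMap.ker (d i).hom) ∧
      (∀ i, n < i → Subsingleton (P i)))
    (hR : ∃ n : ℕ, ∀ M : ModuleCat.{0} Rᵐᵒᵖ, ∃ (P : ℕ → ModuleCat.{0} Rᵐᵒᵖ)
      (d : ∀ i : ℕ, P (i + 1) ⟶ P i) (ε : P 0 ⟶ M),
      (∀ i, Module.Projective Rᵐᵒᵖ (P i)) ∧ Function.Surjective ε.hom ∧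
      LinearMap.range (d 0).hom = LinearMap.ker ε.hom ∧
      (∀ i, LinearMap.range (d (i + 1)).hom = LinearMap.ker (d i).hom) ∧
      (∀ i, n < i → Subsingleton (P i)))
    (hx : ∃ x : R, ¬ IsUnit x ∧ (∀ r : R, ∃ s : R, x * r = s * x) ∧ ∀ y : R, y * x = 0 → y = 0)

include h0 h1 h2 hL hR hx

/-- A regular local ring of left Krull dimension at most three with a normal non-unit without left
annihilator is a domain. -/
theorem domain_of_dim_three (h : KrullLE R 3 R) : IsDomain R := by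
  by_contra hc
  refine hc (@NoZeroDivisors.to_isDomain R _ _ ⟨fun hab => eq_zero_or_eq_zero' (gdf_of_res' hL)
    (gdf_of_res' hR) (fun P Q hP hQ hPQ ⟨x, hx0, hx'⟩ => (hc ?_).elim) hab⟩)
  have hK : KrullLE R 2 (R ⧸ lsub Q) := by
    obtain ⟨a, haQ, haP⟩ := SetLike.exists_of_lt hPQ
    obtain ⟨c, hc, hc'⟩ := exists_reg_ideal (P := P) hP haQ haP
    have h2 := (h.of_surj _ (lsub P).mkQ_surjective).coker (rho P c) (rho_inj hc')
    let g : (R ⧸ lsub P) →ₗ[R] (R ⧸ lsub Q) :=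
      (lsub P).mapQ (lsub Q) LinearMap.id fun x hx => hPQ.le hx
    refine h2.of_surj ((LinearMap.range (rho P c)).liftQ g ?_) ?_
    · rintro _ ⟨q, rfl⟩
      obtain ⟨x, rfl⟩ := (lsub P).mkQ_surjective q
      exact mk_eq_zero.2 (Q.mul_mem_left x c hc)
    · intro q
      obtain ⟨x, rfl⟩ := (lsub Q).mkQ_surjective q
      exact ⟨Submodule.Quotient.mk ((lsub P).mkQ x), rfl⟩
  refine result R h0 h1 h2 hL hR hx ⟨LinearMap.range (LinearMap.toSpanSingleton R R x),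
    fun h => hx0 ?_, hK.of_surj
      (Q.asIdeal.liftQ (LinearMap.toSpanSingleton R R x).rangeRestrict
        fun q hq => Subtype.ext (hx' q hq)) ?_⟩
  · exact (Submodule.eq_bot_iff _).1 h x ⟨1, one_smul _ _⟩
  · rintro ⟨_, r, rfl⟩
    exact ⟨Submodule.Quotient.mk r, rfl⟩

end Pool.Agent.Lib.MP_95d09c_al.K3
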