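import Pool.Agent.Lib.MP_95d09c_al.K3.Top

/-!
A local ring with an exact top has no nonzero left ideal of dimension at most one, and the top
passes to the quotient by a normal element.
-/

set_option autoImplicit false
set_option linter.unusedSectionVars false

namespace Pool.Agent.Lib.MP_95d09c_al.K3

open MulOpposite K2 K2One

variable {R : Type} [Ring R] [IsLocalRing R] [IsNoetherianRing R] [IsNoetherianRing Rᵐᵒᵖ]

theorem final3 {a b : Type} [Fintype b] {c : ℕ} {α : Matrix a b R} {β : Matrix b (Fin c) R}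
    (Ψ : IsTop α β) (hex : Van α β R) {Q K : TwoSidedIdeal R} (hQ : Prm Q)
    (hK : ∀ x, x ∈ K ↔ ∀ p ∈ Q, p * x = 0) (htf : ∀ c, Reg Q c → ∀ x ∈ K, c * x = 0 → x = 0)
    {x1 : R} (hx1 : x1 ∈ K) (hx1' : x1 ≠ 0) {c0 : R} (hc0 : Reg Q c0) (hc0' : ¬ IsUnit c0)
    (hsoc : ∀ x : R, (∀ μ, ¬ IsUnit μ → x * μ = 0) → x = 0)
    (h1 : ∀ c, Reg Q c → ∃ j, ∀ w ∈ Wd R j, ∃ r, w - r * c ∈ Q) : False := by
  classical
  have := noeth_opop (R := R)
  have := op_local (Λ := R)
  have := isNoetherian_right (Λ := R)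
  obtain ⟨Q', hQ', -, ⟨x2, hx2, hx2', hx2''⟩, htf'⟩ := exists_ann_prime K.op (x0 := op x1)
    (mop.2 hx1) (by simpa using hx1')
  let X : TwoSidedIdeal R := (killed K.op Q' fun a ha r => Q'.mul_mem_right a r ha).unop
  have hX : ∀ x, x ∈ X ↔ x ∈ K ∧ ∀ p ∈ Q', x * p.unop = 0 := fun x => by
    rw [TwoSidedIdeal.mem_unop_iff, mem_killed, mop]
    refine and_congr Iff.rfl (forall₂_congr fun p _ => ?_)
    rw [← unop_eq_zero_iff]; rfl
  have hx3 : x2.unop ∈ X := (hX _).2 ⟨mop.1 hx2, fun p hp => congrArg unop (hx2'' p hp)⟩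
  obtain ⟨d, hd, hd'⟩ : ∃ d ∈ mx Rᵐᵒᵖ, Reg Q' d := by
    by_contra hc
    refine hx2' (unop_injective (hsoc _ fun μ hμ => ((hX _).1 hx3).2 (op μ) ?_))
    by_contra h
    exact hc (exists_reg_ideal hQ' (mem_mx.2 (by simpa using hμ)) h)
  have hdu : ¬ IsUnit d.unop := fun h => mem_mx.1 hd (by simpa using h.op)
  have hinj : ∀ x ∈ X, x * d.unop = 0 → x = 0 := fun x hx h =>
    op_injective (htf' d hd' (op x) (mop.2 ((hX x).1 hx).1)
      (fun p hp => unop_injective (((hX x).1 hx).2 p hp)) (unop_injective h))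
  have hcl : ∀ z : Fin c → R, (∀ i, act β z i ∈ X) → ∀ j, z j ∈ X := by
    refine Ψ.cl X fun x hx => ?_
    let S : TwoSidedIdeal R := TwoSidedIdeal.mk' {x | ∀ μ, ¬ IsUnit μ → x * μ ∈ X}
      (fun μ _ => by rw [zero_mul]; exact X.zero_mem)
      (fun ha hb μ hμ => by rw [add_mul]; exact X.add_mem (ha μ hμ) (hb μ hμ))
      (fun ha μ hμ => by rw [neg_mul]; exact X.neg_mem (ha μ hμ))
      (fun ha μ hμ => by rw [mul_assoc]; exact X.mul_mem_left _ _ (ha μ hμ))
      (fun ha μ hμ => by rw [mul_assoc]; exact ha _ (nu_mul_left _ hμ))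
    have hS : ∀ x, x ∈ S ↔ ∀ μ, ¬ IsUnit μ → x * μ ∈ X := fun x => by simp [S]
    obtain ⟨i, hi⟩ := left_nil_of_right_nil (U := S) (U' := X) (j := 1) (by
      rintro _ ⟨μ, w, hμ, -, rfl⟩ y hy
      exact (hS y).1 hy _ (nu_mul_right hμ w))
    have hxK : x ∈ K := (hK x).2 fun p hp => hsoc _ fun μ hμ => by
      rw [mul_assoc]
      exact (hK _).1 ((hX _).1 (hx μ hμ)).1 p hp
    refine (hX x).2 ⟨hxK, fun p hp => htf _ (hc0.pow i) _ (K.mul_mem_right _ _ hxK) ?_⟩
    rw [← mul_assoc]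
    exact ((hX _).1 (hi _ (pow_mem_Wd hc0' i) x ((hS x).2 hx))).2 p hp
  let D : Submodule R R := (lsub X).map (LinearMap.toSpanSingleton R R d.unop)
  obtain ⟨x0, hx0, hx0'⟩ : ∃ x0 ∈ X, x0 ∉ D := by
    by_contra hc
    push Not at hc
    have h2 : rsub X ≤ ⊥ := by
      refine nak (IsNoetherian.noetherian _) fun x hx => Submodule.mem_sup_right ?_
      obtain ⟨z, hz, rfl⟩ := hc x hx
      exact smul_mem_msub (w := d) ⟨d, 1, mem_mx.1 hd, rfl, (mul_one d).symm⟩ hz
    exact hx2' (unop_injective (h2 hx3))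
  obtain ⟨e, he, z0, hz0⟩ := exists_reg_smul hQ (M := lsub X)
    (fun p hp x => Subtype.ext ((hK _).1 ((hX _).1 x.2).1 p hp))
    ((LinearMap.toSpanSingleton R R d.unop).restrict fun x hx => X.mul_mem_right x _ hx)
    (by
      rw [injective_iff_map_eq_zero]
      exact fun x hx => Subtype.ext (hinj x x.2 (congrArg Subtype.val hx))) ⟨x0, hx0⟩
  obtain ⟨j, hj⟩ := h1 e he
  obtain ⟨x, hx, hx', hxm⟩ := exists_socle (X := lsub X) (D := D) j x0 hx0 hx0' fun w hw => by
    obtain ⟨r, hr⟩ := hj w hw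
    have h2 : (w - r * e) * x0 = 0 := (hK _).1 ((hX _).1 hx0).1 _ hr
    rw [sub_mul, sub_eq_zero, mul_assoc] at h2
    rw [h2]
    exact D.smul_mem r ⟨z0, z0.2, congrArg Subtype.val hz0⟩
  obtain ⟨k⟩ := Ψ.pos
  choose z hz hz' using fun i => hxm _ (Ψ.min i k)
  have h3 : act β (Pi.single k x) = fun i => z i * d.unop := by
    ext i
    have : z i * d.unop = β i k * x := hz' i
    rw [this]
    simp [act, Pi.single_apply]
  obtain ⟨w, hw⟩ := hex z
    (funext fun i => hinj _ (act_mem (V := lsub X) _ hz i) (by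
      have := congrFun (act_act Ψ.zero (Pi.single k x)) i
      rw [h3] at this
      exact (act_smul α z d.unop i).symm.trans this))
  have h4 := hcl w (fun i => hw ▸ hz i) k
  have h5 := Ψ.inj (Pi.single k x - fun j => w j * d.unop) (by
    rw [act_sub, h3, sub_eq_zero, hw]
    exact funext fun i => (act_smul β w d.unop i).symm)
  refine hx' ⟨w k, h4, ?_⟩
  have := congrFun h5 k
  simp only [Pi.sub_apply, Pi.single_eq_same, Pi.zero_apply, sub_eq_zero] at this
  exact this.symm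

theorem no_small {a b : Type} [Fintype b] {c : ℕ} {α : Matrix a b R} {β : Matrix b (Fin c) R}
    (Ψ : IsTop α β) (hex : Van α β R) {L : Ideal R} (h0 : L ≠ ⊥) (hd : KrullLE R 1 L) :
    False := by
  classical
  have := op_local (Λ := R)
  have := isNoetherian_right (Λ := R)
  have hsoc' : ∀ x : R, (∀ μ, ¬ IsUnit μ → μ * x = 0) → x = 0 := fun x hx => by
    obtain ⟨k⟩ := Ψ.pos
    have h1 := Ψ.inj (Pi.single k x) (funext fun i => by
      simpa [act, Pi.single_apply] using hx _ (Ψ.min i k))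
    simpa using congrFun h1 k
  have hw : ∀ n : ℕ, ∀ x : R, (∀ w ∈ Wd R n, w * x = 0) → x = 0 := by
    intro n
    induction n with
    | zero => intro x hx; simpa using hx 1 rfl
    | succ n ih =>
      intro x hx
      refine ih x fun w hw => hsoc' _ fun μ hμ => ?_
      rw [← mul_assoc]
      exact hx _ ⟨μ, w, hμ, hw, rfl⟩
  have hsoc : ∀ x : R, (∀ μ, ¬ IsUnit μ → x * μ = 0) → x = 0 := fun x hx => by
    let S : TwoSidedIdeal R := TwoSidedIdeal.mk' {x | ∀ μ, ¬ IsUnit μ → x * μ = 0}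
      (fun μ _ => zero_mul μ)
      (fun ha hb μ hμ => by rw [add_mul, ha μ hμ, hb μ hμ, add_zero])
      (fun ha μ hμ => by rw [neg_mul, ha μ hμ, neg_zero])
      (fun ha μ hμ => by rw [mul_assoc, ha μ hμ, mul_zero])
      (fun ha μ hμ => by rw [mul_assoc]; exact ha _ (nu_mul_left _ hμ))
    have hS : ∀ x, x ∈ S ↔ ∀ μ, ¬ IsUnit μ → x * μ = 0 := fun x => by simp [S]
    obtain ⟨i, hi⟩ := left_nil_of_right_nil (U := S) (U' := ⊥) (j := 1) (by
      rintro _ ⟨μ, w, hμ, -, rfl⟩ y hy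
      exact (TwoSidedIdeal.mem_bot _).2 ((hS y).1 hy _ (nu_mul_right hμ w)))
    exact hw i x fun w hw => (TwoSidedIdeal.mem_bot _).1 (hi w hw x ((hS x).2 hx))
  obtain ⟨T, hT⟩ := exists_small R 1
  obtain ⟨x, hxL, hx⟩ := Submodule.exists_mem_ne_zero_of_ne_bot h0
  obtain ⟨Q, hQ, hQ1, ⟨x1, hx1, hx1', hx1''⟩, htf⟩ := exists_ann_prime T ((hT x).2 (hd.quot
    ((LinearMap.toSpanSingleton R R x).codRestrict L fun r => L.smul_mem r hxL)
    fun r => ⟨fun h => Subtype.ext h, fun h => congrArg Subtype.val h⟩)) hx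
  have hQd : KrullLE R 1 (R ⧸ lsub Q) := by
    obtain ⟨s, hs⟩ := IsNoetherian.noetherian (rsub T)
    have key : ∀ s : Finset R, (∀ y ∈ s, y ∈ T) → KrullLE R 1
        (R ⧸ s.inf fun y => LinearMap.ker (LinearMap.toSpanSingleton R R y)) := fun s => by
      induction s using Finset.induction_on with
      | empty => exact fun _ => (KrullLE.triv 1 PUnit.{1}).quot 0 fun x => by simp
      | insert y s _ ih =>
        intro h
        rw [Finset.inf_insert]
        exact ((hT y).1 (h y (Finset.mem_insert_self _ _))).inf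
          (ih fun z hz => h z (Finset.mem_insert_of_mem hz))
    refine (key s fun y hy => (hs ▸ Submodule.subset_span hy : y ∈ rsub T)).mono
      fun y hy => hQ1 y fun z hz => ?_
    have h1 : rsub T ≤ LinearMap.ker (lmul y) := by
      rw [← hs, Submodule.span_le]
      exact fun z hz => Finset.inf_le
        (f := fun y => LinearMap.ker (LinearMap.toSpanSingleton R R y)) hz hy
    exact h1 hz
  let K : TwoSidedIdeal R := killed ⊤ Q fun a ha r => Q.mul_mem_right a r ha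
  have hK : ∀ x, x ∈ K ↔ ∀ p ∈ Q, p * x = 0 := fun x => by
    rw [mem_killed]; simp
  obtain ⟨c0, hc0, hc0'⟩ : ∃ c ∈ mx R, Reg Q c := by
    by_contra hc
    refine hx1' (hsoc' _ fun μ hμ => hx1'' μ ?_)
    by_contra h
    exact hc (exists_reg_ideal hQ (mem_mx.2 hμ) h)
  exact final3 Ψ hex hQ hK (fun c hc y hy => htf c hc y
      ((hT y).2 (hQd.mono fun p hp => (hK y).1 hy p hp)) ((hK y).1 hy))
    ((hK x1).2 hx1'') hx1' hc0'
    (mem_mx.1 hc0) hsoc fun c hc => K2.words_of_artinian (hQd.coker (rho Q c) (rho_inj hc))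

end Pool.Agent.Lib.MP_95d09c_al.K3
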