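import Pool.Agent.Lib.MP_95d09c_al.K3.Fin

/-!
Reduction modulo a normal element without left annihilator.
-/

set_option autoImplicit false
set_option linter.unusedSectionVars false

namespace Pool.Agent.Lib.MP_95d09c_al.K3

open MulOpposite K2 K2One

section Quot

variable {R : Type} [Ring R] {A : Type} [Ring A] (f : R →+* A)

theorem act_f {a b : Type} [Fintype b] (φ : Matrix a b R) (z : b → R) :
    act (φ.map f) (fun j => f (z j)) = fun i => f (act φ z i) := by
  ext i
  simp [act]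

/-- Exactness at two consecutive places gives exactness at the upper one modulo `x`. -/
theorem van_quot {x : R} (hf : Function.Surjective f) (hk : ∀ r, f r = 0 ↔ ∃ s, r = s * x)
    (hx : ∀ y, y * x = 0 → y = 0) {a' a b c : Type} [Fintype a] [Fintype b] [Fintype c]
    {α' : Matrix a' a R} {α : Matrix a b R} {β : Matrix b c R} (hz : α' * α = 0)
    (h1 : Van α' α R) (h2 : Van α β R) : Van (α.map f) (β.map f) A := by
  intro z' hz'
  choose z hz1 using fun j => hf (z' j)
  obtain rfl : z' = fun j => f (z j) := funext fun j => (hz1 j).symm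
  rw [act_f] at hz'
  choose y hy using fun i => (hk _).1 (congrFun hz' i)
  obtain ⟨w, hw⟩ := h1 y (funext fun i => hx _ (by
    have h3 := congrFun (act_act hz z) i
    rw [show act α z = fun j => y j • x from funext hy, act_smul] at h3
    exact h3))
  obtain ⟨v, hv⟩ := h2 (z - fun j => w j • x) (by
    rw [act_sub, sub_eq_zero]
    ext i
    rw [act_smul, ← hw]
    exact hy i)
  refine ⟨fun k => f (v k), ?_⟩
  rw [act_f, ← hv]
  ext j
  rw [Pi.sub_apply, map_sub, (hk (w j • x)).2 ⟨w j, rfl⟩, sub_zero]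

theorem krull_semi (hf : Function.Surjective f) (n : ℕ) : ∀ {M M' : Type} [AddCommGroup M]
    [Module R M] [AddCommGroup M'] [Module A M'] (g : M →ₛₗ[f] M'), Function.Surjective g →
    KrullLE R n M → KrullLE A n M' := by
  have : RingHomSurjective f := ⟨hf⟩
  induction n with
  | zero =>
    intro M M' _ _ _ _ g hg h
    have : IsArtinian R M := h
    exact (Submodule.comap_strictMono_of_surjective hg).wellFoundedLT
  | succ n ih =>
    intro M M' _ _ _ _ g hg h L hL
    obtain ⟨N, hN⟩ := h (fun i => (L i).comap g) fun i j hij => Submodule.comap_mono (hL hij)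
    refine ⟨N, fun i hi => ih (Submodule.mapQ _ _
      ((g.domRestrict ((L i).comap g)).codRestrict (L i) fun x => x.2) fun x hx => hx) ?_ (hN i hi)⟩
    intro q
    obtain ⟨⟨y, hy⟩, rfl⟩ := Submodule.mkQ_surjective _ q
    obtain ⟨x, rfl⟩ := hg y
    exact ⟨Submodule.Quotient.mk ⟨x, hy⟩, rfl⟩

end Quot

theorem krull_sup {R : Type} [Ring R] {n : ℕ} {U V : Submodule R R} (hU : KrullLE R n U)
    (hV : KrullLE R n V) : KrullLE R n (U ⊔ V : Submodule R R) := by
  have h1 : KrullLE R n (U × V) := KrullLE.mid n (LinearMap.inl R U V)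
    (LinearMap.snd R U V) (LinearMap.range_inl R U V).ge hU hV
  refine h1.of_surj ((Submodule.inclusion le_sup_left).coprod (Submodule.inclusion le_sup_right)) ?_
  rintro ⟨z, hz⟩
  obtain ⟨u, hu, v, hv, rfl⟩ := Submodule.mem_sup.1 hz
  exact ⟨(⟨u, hu⟩, ⟨v, hv⟩), rfl⟩

variable {R : Type} [Ring R] [IsLocalRing R] [IsNoetherianRing R] [IsNoetherianRing Rᵐᵒᵖ]

theorem core_top (h3 : Top3 R) {x : R} (hu : ¬ IsUnit x) (hn : ∀ r, ∃ s, x * r = s * x)
    (hx : ∀ y, y * x = 0 → y = 0) {L : Ideal R} (h0 : L ≠ ⊥) (hd : KrullLE R 2 L) : False := by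
  classical
  have := op_local (Λ := R)
  have := isNoetherian_right (Λ := R)
  let I : Ideal R := LinearMap.range (LinearMap.toSpanSingleton R R x)
  have hI : I.IsTwoSided := ⟨by
    rintro _ b ⟨r, rfl⟩
    obtain ⟨s, hs⟩ := hn b
    refine ⟨r * s, ?_⟩
    simp only [LinearMap.toSpanSingleton_apply, smul_eq_mul]
    rw [mul_assoc, mul_assoc, hs]⟩
  let f : R →+* R ⧸ I := Ideal.Quotient.mk I
  have hf : Function.Surjective f := Ideal.Quotient.mk_surjective
  have : RingHomSurjective f := ⟨hf⟩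
  have hk : ∀ r, f r = 0 ↔ ∃ s, r = s * x := fun r => by
    rw [Ideal.Quotient.eq_zero_iff_mem]
    exact ⟨fun ⟨s, hs⟩ => ⟨s, hs.symm⟩, fun ⟨s, hs⟩ => ⟨s, hs.symm⟩⟩
  have hloc : ∀ r, ¬ IsUnit r → ¬ IsUnit (f r) := fun r hr h => by
    obtain ⟨s', hs'⟩ := h.exists_right_inv
    obtain ⟨s, rfl⟩ := hf s'
    obtain ⟨t, ht⟩ := (hk (1 - r * s)).1 (by rw [map_sub, map_mul, hs', map_one, sub_self])
    refine nu_add (nu_mul_left t hu) (nu_mul_right hr s) ?_
    rw [← ht, sub_add_cancel]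
    exact isUnit_one
  have : Nontrivial (R ⧸ I) := ⟨⟨f 0, 1, fun h => hloc 0 not_isUnit_zero (h ▸ isUnit_one)⟩⟩
  have : IsLocalRing (R ⧸ I) := ⟨fun {a b} h => by
    obtain ⟨a, rfl⟩ := hf a
    have hb : b = f (1 - a) := by rw [map_sub, map_one, ← h, add_sub_cancel_left]
    rw [hb]
    exact (IsLocalRing.isUnit_or_isUnit_of_add_one (add_sub_cancel a 1)).imp
      (fun h => h.map f) fun h => h.map f⟩
  have : IsNoetherianRing (R ⧸ I) := isNoetherianRing_of_surjective R _ f hf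
  have : IsNoetherianRing (R ⧸ I)ᵐᵒᵖ := isNoetherianRing_of_surjective Rᵐᵒᵖ _ (RingHom.op f)
    fun z => by
      obtain ⟨r, hr⟩ := hf z.unop
      exact ⟨op r, unop_injective hr⟩
  obtain ⟨a', a, b, _, _, c, α', α, β, hz, v1, v2, Ψ⟩ := h3
  have hex : Van (α.map f) (β.map f) (R ⧸ I) := van_quot f hf hk hx hz v1 v2
  have Ψ' : IsTop (α.map f) (β.map f) := by
    refine ⟨Ψ.pos, by rw [← Matrix.map_mul, Ψ.zero, Matrix.map_zero _ (map_zero f)],
      fun z _ h => hex z h, fun i j => hloc _ (Ψ.min i j), fun v hv => ?_, fun J hJ z hz j => ?_⟩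
    · obtain ⟨w, hw⟩ := van_quot f hf hk hx (β := (0 : Matrix (Fin c) Empty R)) Ψ.zero v2
        (fun z hz => ⟨0, by rw [Ψ.inj z hz, act_zero]⟩) v hv
      rw [hw, Subsingleton.elim w 0, act_zero]
    · choose z0 hz0 using fun j => hf (z j)
      obtain rfl : z = fun j => f (z0 j) := funext fun j => (hz0 j).symm
      rw [act_f] at hz
      refine (TwoSidedIdeal.mem_comap f).1 (Ψ.cl (TwoSidedIdeal.comap f J) (fun y hy => ?_) z0
        (fun i => (TwoSidedIdeal.mem_comap f).2 (hz i)) j)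
      refine (TwoSidedIdeal.mem_comap f).2 (hJ _ fun μ hμ => ?_)
      obtain ⟨μ, rfl⟩ := hf μ
      rw [← map_mul]
      exact (TwoSidedIdeal.mem_comap f).1 (hy μ fun h => hμ (h.map f))
  obtain ⟨T, hT, hmax⟩ := set_has_maximal_iff_noetherian.2 (inferInstance : IsNoetherian R R)
    {U : Submodule R R | KrullLE R 2 U} ⟨L, hd⟩
  have hle : ∀ U : Submodule R R, KrullLE R 2 U → U ≤ T := fun U hU => by
    have h1 : ¬ T < U ⊔ T := hmax _ (krull_sup hU hT)
    exact le_sup_left.trans (eq_of_le_of_not_lt le_sup_right h1).ge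
  have hr : ∀ r, ∀ t ∈ T, t * r ∈ T := fun r t ht =>
    hle (T.map (LinearMap.toSpanSingleton R R r))
      (KrullLE.of_surj hT ((LinearMap.toSpanSingleton R R r).submoduleMap T)
        (LinearMap.submoduleMap_surjective _ _)) ⟨t, ht, rfl⟩
  have hdiv : ∀ r, r * x ∈ T → r ∈ T := fun r h =>
    hle (T.comap (LinearMap.toSpanSingleton R R x))
      (KrullLE.of_inj hT ((LinearMap.toSpanSingleton R R x).restrict fun y hy => hy)
        fun y hy => Subtype.ext (hx _ (congrArg Subtype.val hy))) h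
  let m : T →ₗ[R] T := (LinearMap.toSpanSingleton R R x).restrict fun t ht => hr x t ht
  have hm : Function.Injective m := by
    rw [injective_iff_map_eq_zero]
    exact fun y hy => Subtype.ext (hx _ (congrArg Subtype.val hy))
  have h1 : KrullLE R 1 (T ⧸ LinearMap.range m) := KrullLE.coker hT m hm
  let L' : Ideal (R ⧸ I) := T.map f.toSemilinearMap
  refine no_small Ψ' hex (L := L') (fun h => h0 ?_) (krull_semi f hf 1
    ((LinearMap.range m).liftQ ((f.toSemilinearMap.domRestrict T).codRestrict L'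
      fun t => ⟨t, t.2, rfl⟩) ?_) ?_ h1)
  · let T' : Submodule Rᵐᵒᵖ R :=
      { carrier := T
        add_mem' := fun ha hb => T.add_mem ha hb
        zero_mem' := T.zero_mem
        smul_mem' := fun r t ht => hr r.unop t ht }
    have h2 : T' ≤ ⊥ := by
      refine nak (IsNoetherian.noetherian _) fun t ht => Submodule.mem_sup_right ?_
      have h4 : f t ∈ L' := ⟨t, ht, rfl⟩
      rw [h] at h4
      obtain ⟨s, rfl⟩ := (hk t).1 h4
      exact smul_mem_msub (w := op x) ⟨op x, 1, by simpa using hu, rfl, (mul_one _).symm⟩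
        (show s ∈ T' from hdiv s ht)
    exact (Submodule.eq_bot_iff _).2 fun t ht => h2 (hle L hd ht)
  · rintro _ ⟨t, rfl⟩
    exact Subtype.ext ((hk _).2 ⟨t, rfl⟩)
  · rintro ⟨_, t, ht, rfl⟩
    exact ⟨Submodule.Quotient.mk ⟨t, ht⟩, rfl⟩

theorem core (hL : GDf R) (hR : GDf Rᵐᵒᵖ) {x : R} (hu : ¬ IsUnit x)
    (hn : ∀ r, ∃ s, x * r = s * x) (hx : ∀ y, y * x = 0 → y = 0) {L : Ideal R} (h0 : L ≠ ⊥)
    (hd : KrullLE R 2 L) {a b : R} (hab : a * b = 0) : a = 0 ∨ b = 0 := by
  by_contra hc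
  push Not at hc
  obtain ⟨N, hN, hN'⟩ := exists_nil' hL
  obtain ⟨x0, hx0, hx0'⟩ : ∃ x0 ∈ N, x0 ≠ 0 := by
    rcases hN' a b (hab ▸ N.zero_mem) with h | h
    · exact ⟨a, h, hc.1⟩
    · exact ⟨b, h, hc.2⟩
  rcases top3_or_short hR ((hN x0).1 hx0).not_isUnit hx0' with h | h
  · exact core_top h hu hn hx h0 hd
  · exact h.elim hL hR ((hN x0).1 hx0) hx0'

end Pool.Agent.Lib.MP_95d09c_al.K3
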