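import Pool.Agent.Lib.MP_95d09c_al.K2.One

/-!
The last three maps of the minimal resolution of the residue division ring as a right module.
-/

set_option autoImplicit false
set_option linter.unusedSectionVars false

namespace Pool.Agent.Lib.MP_95d09c_al.K3

open MulOpposite K2

variable {R : Type} [Ring R] [IsLocalRing R] [IsNoetherianRing R] [IsNoetherianRing Rᵐᵒᵖ]

/-- Two consecutive maps of the minimal resolution. -/
structure St (m : ℕ) {a b : Type} [Fintype b] {c : ℕ} (α : Matrix a b R)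
    (β : Matrix b (Fin c) R) : Prop where
  pos : Nonempty (Fin c)
  zero : α * β = 0
  ex : ∀ z : b → R, (∀ i, ¬ IsUnit (z i)) → act α z = 0 → ∃ w, z = act β w
  min : ∀ i j, ¬ IsUnit (β i j)
  knu : ∀ v : Fin c → R, act β v = 0 → ∀ j, ¬ IsUnit (v j)
  one : PD Rᵐᵒᵖ 1 (LinearMap.range (rmat β)) → ∀ v : Fin c → R, act β v = 0 → v = 0
  dcc : ∃ (ρ : R → Matrix b b R) (ρ' : R → Matrix (Fin c) (Fin c) R),
    (∀ o, β * ρ' o = ρ o * β) ∧
    ∀ (E : Type) [AddCommGroup E] [Module R E] [Module.Finite R E], DCC ρ α β E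
  pd : PD Rᵐᵒᵖ (m + 1) (LinearMap.range (rmat β))

theorem St.top {m : ℕ} {a b : Type} [Fintype b] {c : ℕ} {α : Matrix a b R}
    {β : Matrix b (Fin c) R} (s : St m α β) (hi : ∀ v : Fin c → R, act β v = 0 → v = 0) :
    IsTop α β := by
  obtain ⟨ρ, ρ', h6, h7⟩ := s.dcc
  refine ⟨s.pos, s.zero, s.ex, s.min, hi, fun J hJ => closed_of_dcc h6 ?_ hJ⟩
  exact dcc_next s.zero h6 (fun z hz => ⟨0, by rw [hi z hz, act_zero]⟩) h7 _

theorem St.step {m : ℕ} {a b : Type} [Fintype b] {c : ℕ} {α : Matrix a b R}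
    {β : Matrix b (Fin c) R} (s : St m α β) (hi : ¬ ∀ v : Fin c → R, act β v = 0 → v = 0) :
    ∃ (m' g : ℕ) (γ : Matrix (Fin c) (Fin g) R), m' < m ∧ St m' β γ ∧ Van β γ R := by
  cases m with
  | zero => exact (hi (s.one s.pd)).elim
  | succ m =>
    obtain ⟨ρ, ρ', h7, h8⟩ := s.dcc
    push Not at hi
    obtain ⟨v, hv, hv0⟩ := hi
    obtain ⟨g, γ, r, k1, k2⟩ := exists_mat (LinearMap.ker (rmat β))
    have hz := mul_eq_zero_of_range r
    have hV := van_of_range r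
    have hl : ∀ o, ∃ x : Matrix (Fin g) (Fin g) R, γ * x = ρ' o * γ := fun o =>
      hV.lift (ρ' o * γ) (by rw [← Matrix.mul_assoc, h7, Matrix.mul_assoc, hz, Matrix.mul_zero])
    choose ρ'' hρ'' using hl
    refine ⟨m, g, γ, Nat.lt_succ_self m, ⟨?_, hz, fun z _ h => hV z h, fun i j => ?_, k1,
      fun h => k2 (r ▸ h), ⟨ρ', ρ'', hρ'', dcc_next s.zero h7 hV h8⟩, r ▸ pd_ker_rmat β s.pd⟩, hV⟩
    · by_contra hc
      obtain ⟨w, hw⟩ := hV v hv
      have : IsEmpty (Fin g) := not_nonempty_iff.1 hc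
      exact hv0 (by rw [hw, Subsingleton.elim w 0, act_zero])
    · rw [← act_single γ]
      exact s.knu _ (act_act hz _) i

/-- The top of the resolution, with three maps. -/
def Top3 (R : Type) [Ring R] [IsLocalRing R] : Prop :=
  ∃ (a' a b : Type) (_ : Fintype a) (_ : Fintype b) (c : ℕ) (α' : Matrix a' a R)
    (α : Matrix a b R) (β : Matrix b (Fin c) R),
    α' * α = 0 ∧ Van α' α R ∧ Van α β R ∧ IsTop α β

theorem top3_aux (m : ℕ) : ∀ (a' a b : Type) [Fintype a] [Fintype b] (c : ℕ) (α' : Matrix a' a R)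
    (α : Matrix a b R) (β : Matrix b (Fin c) R), α' * α = 0 → Van α' α R → Van α β R →
    St m α β → Top3 R := by
  induction m using Nat.strong_induction_on with
  | _ m ih =>
    intro a' a b _ _ c α' α β h1 h2 h3 s
    by_cases hi : ∀ v : Fin c → R, act β v = 0 → v = 0
    · exact ⟨a', a, b, _, _, c, α', α, β, h1, h2, h3, s.top hi⟩
    · obtain ⟨m', g, γ, hm, s', hV⟩ := s.step hi
      exact ih m' hm a b (Fin c) g α β γ s.zero h3 hV s'

/-- The resolution has length at most two. -/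
def Short (R : Type) [Ring R] : Prop :=
  ∃ (g c : ℕ) (φ : Matrix Unit (Fin g) R) (γ : Matrix (Fin g) (Fin c) R),
    (∀ j, ¬ IsUnit (φ () j)) ∧ (∀ μ, ¬ IsUnit μ → ∃ r : Fin g → R, μ = act φ r ()) ∧
    φ * γ = 0 ∧ Van φ γ R ∧ ∀ v : Fin c → R, act γ v = 0 → v = 0

theorem top3_or_short (hR : GDf Rᵐᵒᵖ) {ν : R} (hν : ¬ IsUnit ν) (hν0 : ν ≠ 0) :
    Top3 R ∨ Short R := by
  obtain ⟨n, hn⟩ := hR
  obtain ⟨g, φ, hφ, k1, k2⟩ := exists_mat
    ((rsub (mx R)).comap (LinearMap.proj () : (Unit → R) →ₗ[Rᵐᵒᵖ] R))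
  have h1 : ∀ j, ¬ IsUnit (φ () j) := fun j => by
    have : rmat φ (Pi.single j 1) ∈ LinearMap.range (rmat φ) := ⟨_, rfl⟩
    rw [hφ] at this
    rw [← act_single φ]
    exact mem_mx.1 this
  have h2 : ∀ μ, ¬ IsUnit μ → ∃ r : Fin g → R, μ = act φ r () := fun μ hμ => by
    have : (fun _ => μ) ∈ LinearMap.range (rmat φ) := by
      rw [hφ]; exact mem_mx.2 hμ
    obtain ⟨r, hr⟩ := this
    exact ⟨r, (congrFun hr ()).symm⟩
  let ρ : R → Matrix Unit Unit R := fun r => Matrix.of fun _ _ => r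
  have hl : ∀ r, ∃ x : Matrix (Fin g) (Fin g) R, φ * x = ρ r * φ := fun r =>
    exists_mul_eq φ (ρ r * φ) fun k => by
      obtain ⟨w, hw⟩ := h2 _ (nu_mul_left r (h1 k))
      exact ⟨w, funext fun _ => by rw [← hw]; simp [ρ, Matrix.mul_apply]⟩
  choose ρ' hρ' using hl
  have s : St n (0 : Matrix Unit Unit R) φ := by
    refine ⟨?_, Matrix.zero_mul _, fun z hz _ => ?_, fun _ j => h1 j, k1, fun h => k2 (hφ ▸ h),
      ⟨ρ, ρ', hρ', fun E _ _ _ => dcc_base (fun r => ⟨r, rfl⟩) _ h1 h2⟩, hn _⟩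
    · by_contra hc
      obtain ⟨w, hw⟩ := h2 ν hν
      have : IsEmpty (Fin g) := not_nonempty_iff.1 hc
      exact hν0 (by rw [hw, Subsingleton.elim w 0, act_zero]; rfl)
    · obtain ⟨w, hw⟩ := h2 _ (hz ())
      exact ⟨w, funext fun _ => hw⟩
  by_cases hi : ∀ v : Fin g → R, act φ v = 0 → v = 0
  · exact Or.inr ⟨g, 0, φ, 0, h1, h2, Matrix.mul_zero _,
      fun z hz => ⟨0, by rw [hi z hz, act_zero]⟩, fun v _ => Subsingleton.elim _ _⟩
  obtain ⟨m', g2, γ, -, s', hV⟩ := s.step hi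
  by_cases hi' : ∀ v : Fin g2 → R, act γ v = 0 → v = 0
  · exact Or.inr ⟨g, g2, φ, γ, h1, h2, s'.zero, hV, hi'⟩
  obtain ⟨m'', g3, δ, -, s'', hV'⟩ := s'.step hi'
  exact Or.inl (top3_aux m'' Unit (Fin g) (Fin g2) g3 φ γ δ s'.zero hV hV' s'')

theorem cover_inj {g c : ℕ} {φ : Matrix Unit (Fin g) R} {γ : Matrix (Fin g) (Fin c) R}
    (p1 : ∀ j, ¬ IsUnit (φ () j)) (p2 : ∀ μ, ¬ IsUnit μ → ∃ r : Fin g → R, μ = act φ r ())
    (hz : φ * γ = 0) {E : Type} [AddCommGroup E] [Module R E] (k1 : Van φ γ E)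
    (c : Cover R E) : Function.Injective c.p := by
  have h1 : LinearMap.ker c.p ≤ ⊥ := by
    apply nak (IsNoetherian.noetherian _)
    intro y hy
    obtain ⟨x, hx⟩ := mem_msub_act p1 p2 (mem_msub_top_of_nu (c.min y hy))
    obtain ⟨w, hw⟩ := van_down hz c.surj k1 (fun _ => ⟨y, hy⟩) x (funext fun _ => hx)
    have h2 := congrArg Subtype.val (congrFun hw ())
    refine Submodule.mem_sup_right ?_
    change y = _ at h2
    rw [h2]
    simp only [act, AddSubmonoidClass.coe_finsetSum, SetLike.val_smul]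
    exact Submodule.sum_mem _ fun j _ => smul_mem_msub ⟨_, 1, p1 j, rfl, by simp⟩ (w j).2
  exact LinearMap.ker_eq_bot.1 (le_bot_iff.1 h1)

/-- With a short resolution there is no nonzero nilpotent element. -/
theorem Short.elim (h : Short R) (hL : GDf R) (hR : GDf Rᵐᵒᵖ) {x0 : R} (hx0 : IsNilpotent x0)
    (hx0' : x0 ≠ 0) : False := by
  classical
  have := op_local (Λ := R)
  have := noeth_opop (R := R)
  obtain ⟨g, c, φ, γ, p1, p2, hz, hV, hi⟩ := h
  obtain ⟨N, hN, hN'⟩ := exists_nil' hL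
  obtain ⟨y, hy, hy'⟩ := exists_ann' hR {op x0} (by
    intro x hx
    rw [Finset.mem_singleton.1 hx]
    obtain ⟨m, hm⟩ := hx0
    exact ⟨m, by rw [← op_pow, hm, op_zero]⟩)
  have hy1 : x0 * y.unop = 0 := congrArg unop (hy' _ (Finset.mem_singleton_self _))
  have hy2 : y.unop ∉ N := fun h => hy (by
    obtain ⟨m, hm⟩ := (hN _).1 h
    exact ⟨m, unop_injective (by rw [unop_pow, hm, unop_zero])⟩)
  let L : Submodule R R := LinearMap.range (LinearMap.toSpanSingleton R R y.unop)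
  let e0 : Matrix (Fin c) Empty R := 0
  let e1 : Matrix Empty Empty R := 0
  have k3 : Van e0 e1 (R ⧸ L) := fun z _ => ⟨0, Subsingleton.elim _ _⟩
  have k2 : Van γ e0 (LinearMap.ker L.mkQ) :=
    van_ker (Matrix.mul_zero _) (fun z hz => ⟨0, by rw [hi z hz, act_zero]⟩) L.mkQ_surjective k3
  let p : R →ₗ[R] LinearMap.ker L.mkQ := (LinearMap.toSpanSingleton R R y.unop).codRestrict _
    fun r => by rw [Submodule.ker_mkQ]; exact ⟨r, rfl⟩
  have hp : Function.Surjective p := by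
    rintro ⟨z, hz⟩
    rw [Submodule.ker_mkQ] at hz
    obtain ⟨r, rfl⟩ := hz
    exact ⟨r, rfl⟩
  have k1 : Van φ γ (LinearMap.ker p) := van_ker (Matrix.mul_zero _) hV hp k2
  obtain ⟨cv⟩ := nonempty_cover R (LinearMap.ker p)
  have hc := cover_inj p1 p2 hz k1 cv
  obtain ⟨z, hz⟩ := cv.surj ⟨x0, Subtype.ext hy1⟩
  have h0 : ∀ j, z j = 0 := by
    intro j
    exfalso
    have h1 : (cv.p (Pi.single j 1) : R) * y.unop = 0 :=
      congrArg Subtype.val (cv.p (Pi.single j 1)).2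
    obtain ⟨m, hm⟩ := (hN _).1 ((hN' _ _ (h1 ▸ N.zero_mem)).resolve_right hy2)
    have key : ∀ m : ℕ, (cv.p (Pi.single j 1) : R) ^ m ≠ 0 := by
      intro m
      induction m with
      | zero => simp
      | succ m ih =>
        intro h
        have h3 : cv.p (((cv.p (Pi.single j 1) : R) ^ m) • Pi.single j 1) = 0 := by
          rw [map_smul]
          exact Subtype.ext ((pow_succ _ m).symm.trans h)
        have h4 := congrFun ((injective_iff_map_eq_zero _).1 hc _ h3) j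
        exact ih (by simpa using h4)
    exact key m hm
  rw [show z = 0 from funext h0, map_zero] at hz
  exact hx0' (congrArg Subtype.val hz).symm

end Pool.Agent.Lib.MP_95d09c_al.K3
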